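import Mathlib

/-! An algebraic curvature tensor is bounded by its sectional curvatures. -/

namespace Pool.Agent.MP_3ee8cb_gt.DNGA

open scoped RealInnerProductSpace

variable {E : Type} [NormedAddCommGroup E] [InnerProductSpace ℝ E]

/-- An algebraic curvature tensor. -/
structure Cu (K : E → E → E → E) : Prop where
  add1 : ∀ a a' b c, K (a + a') b c = K a b c + K a' b c
  smul1 : ∀ (r : ℝ) a b c, K (r • a) b c = r • K a b c
  add3 : ∀ a b c c', K a b (c + c') = K a b c + K a b c'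
  smul3 : ∀ (r : ℝ) a b c, K a b (r • c) = r • K a b c
  anti : ∀ a b c, K a b c = -K b a c
  skew : ∀ a b c d, ⟪K a b c, d⟫ = -⟪c, K a b d⟫
  pair : ∀ a b c d, ⟪K a b c, d⟫ = ⟪K c d a, b⟫
  bia : ∀ a b c, K a b c + K b c a + K c a b = 0

namespace Cu

variable {K : E → E → E → E} (h : Cu K)
include h

theorem add2 (a b b' c : E) : K a (b + b') c = K a b c + K a b' c := by
  rw [h.anti, h.add1, h.anti a b, h.anti a b', neg_add]

theorem smul2 (r : ℝ) (a b c : E) : K a (r • b) c = r • K a b c := by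
  rw [h.anti, h.smul1, h.anti a b, smul_neg]

theorem sym (a a' u : E) : ⟪K a u u, a'⟫ = ⟪K a' u u, a⟫ := by
  rw [h.pair, h.anti, inner_neg_left, h.skew, neg_neg, real_inner_comm]

variable {c : ℝ} (hc : ∀ a b, |⟪K a b b, a⟫| ≤ c * (‖a‖ ^ 2 * ‖b‖ ^ 2))
include hc

theorem jac_unit (a a' u : E) (ha : ‖a‖ = 1) (ha' : ‖a'‖ = 1) :
    ⟪K a u u, a'⟫ ≤ c * ‖u‖ ^ 2 := by
  have h1 := abs_le.1 (hc (a + a') u)
  have h2 := abs_le.1 (hc (a + (-1 : ℝ) • a') u)
  have p := parallelogram_law_with_norm ℝ a a'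
  rw [h.add1, h.smul1] at h2
  rw [h.add1] at h1
  simp only [inner_add_left, inner_add_right, inner_smul_left, inner_smul_right, h.sym a' a u,
    conj_trivial] at h1 h2
  rw [neg_one_smul, ← sub_eq_add_neg] at h2
  rw [ha, ha'] at p
  have e : c * (‖a + a'‖ ^ 2 * ‖u‖ ^ 2) + c * (‖a - a'‖ ^ 2 * ‖u‖ ^ 2) = 4 * (c * ‖u‖ ^ 2) := by
    linear_combination c * ‖u‖ ^ 2 * p
  linarith [h1.2, h2.1]

theorem four_unit (a u v d : E) (ha : ‖a‖ = 1) (hu : ‖u‖ = 1) (hv : ‖v‖ = 1) (hd : ‖d‖ = 1) :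
    ⟪K a u v + K a v u, d⟫ ≤ 2 * c := by
  have h1 := h.jac_unit hc a d (u + v) ha hd
  have h2 := h.jac_unit hc a (-d) (u + (-1 : ℝ) • v) ha (by rw [norm_neg, hd])
  have p := parallelogram_law_with_norm ℝ u v
  simp only [h.add2, h.add3, h.smul2, h.smul3, inner_add_left, inner_smul_left, inner_neg_right,
    conj_trivial] at h1 h2
  rw [neg_one_smul, ← sub_eq_add_neg] at h2
  rw [hu, hv] at p
  have e : c * ‖u + v‖ ^ 2 + c * ‖u - v‖ ^ 2 = 4 * c := by linear_combination c * p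
  rw [inner_add_left]
  linarith

theorem unit (a u v d : E) (ha : ‖a‖ = 1) (hu : ‖u‖ = 1) (hv : ‖v‖ = 1) (hd : ‖d‖ = 1) :
    ⟪K a u v, d⟫ ≤ 4 / 3 * c := by
  have h1 := h.four_unit hc a u v d ha hu hv hd
  have h2 := h.four_unit hc u v a (-d) hu hv ha (by rw [norm_neg, hd])
  have h3 := congrArg (fun x => ⟪x, d⟫) (h.bia a u v)
  rw [h.anti u a] at h2
  rw [h.anti v a] at h3
  simp only [inner_add_left, inner_neg_left, inner_neg_right, inner_zero_left] at h1 h2 h3
  linarith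

theorem bound (hc0 : 0 ≤ c) (a u v : E) : ‖K a u v‖ ≤ 4 / 3 * c * (‖a‖ * ‖u‖ * ‖v‖) := by
  have nz : ∀ x : E, x = 0 ∨ ∃ y : E, ‖y‖ = 1 ∧ x = ‖x‖ • y := fun x => by
    refine or_iff_not_imp_left.2 fun hx => ⟨‖x‖⁻¹ • x, norm_smul_inv_norm hx, ?_⟩
    rw [smul_inv_smul₀ (norm_ne_zero_iff.2 hx)]
  rcases nz a with ha | ⟨a', ha, ea⟩
  · have := h.smul1 0 a u v
    rw [zero_smul, zero_smul] at this
    simp [ha, this]
  rcases nz u with hu | ⟨u', hu, eu⟩
  · have := h.smul2 0 a u v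
    rw [zero_smul, zero_smul] at this
    simp [hu, this]
  rcases nz v with hv | ⟨v', hv, ev⟩
  · have := h.smul3 0 a u v
    rw [zero_smul, zero_smul] at this
    simp [hv, this]
  have key : ‖K a' u' v'‖ ≤ 4 / 3 * c := by
    rcases nz (K a' u' v') with h0 | ⟨d, hd, ed⟩
    · rw [h0, norm_zero]
      positivity
    · have := h.unit hc a' u' v' d ha hu hv hd
      rwa [ed, inner_smul_left, real_inner_self_eq_norm_sq, hd, one_pow, mul_one,
        conj_trivial] at this
  have e : K a u v = (‖a‖ * ‖u‖ * ‖v‖) • K a' u' v' := by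
    conv_lhs => rw [ea, eu, ev, h.smul1, h.smul2, h.smul3, smul_smul, smul_smul]
  rw [e, norm_smul, Real.norm_of_nonneg (by positivity), mul_comm]
  exact mul_le_mul_of_nonneg_right key (by positivity)

omit hc in
/-- Adding a tensor of constant curvature. -/
theorem shift (lo : ℝ) : Cu fun a b c => K a b c + lo • (⟪b, c⟫ • a - ⟪a, c⟫ • b) where
  add1 a a' b c := by
    rw [h.add1, inner_add_left]
    module
  smul1 r a b c := by
    rw [h.smul1, real_inner_smul_left]
    module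
  add3 a b c c' := by
    rw [h.add3, inner_add_right, inner_add_right]
    module
  smul3 r a b c := by
    rw [h.smul3, real_inner_smul_right, real_inner_smul_right]
    module
  anti a b c := by
    rw [h.anti]
    module
  skew a b c d := by
    simp only [inner_add_left, inner_add_right, inner_sub_left, inner_sub_right,
      real_inner_smul_left, real_inner_smul_right, h.skew a b c d, real_inner_comm a c,
      real_inner_comm b c]
    ring
  pair a b c d := by
    simp only [inner_add_left, inner_sub_left, real_inner_smul_left, h.pair a b c d,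
      real_inner_comm a c, real_inner_comm b c, real_inner_comm a d, real_inner_comm b d]
    ring
  bia a b c := by
    have := h.bia a b c
    rw [real_inner_comm a c, real_inner_comm a b, real_inner_comm b c]
    linear_combination (norm := module) this

omit hc in
/-- The distance to the tensor of constant curvature `-lo`. -/
theorem pinch {lo hi : ℝ} (hl : lo ≤ hi)
    (up : ∀ a b, lo * (‖a‖ ^ 2 * ‖b‖ ^ 2 - ⟪a, b⟫ ^ 2) ≤ -⟪K a b b, a⟫)
    (dn : ∀ a b, -⟪K a b b, a⟫ ≤ hi * (‖a‖ ^ 2 * ‖b‖ ^ 2 - ⟪a, b⟫ ^ 2)) (a b c : E) :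
    ‖K a b c + lo • (⟪b, c⟫ • a - ⟪a, c⟫ • b)‖ ≤ 4 / 3 * (hi - lo) * (‖a‖ * ‖b‖ * ‖c‖) := by
  refine (h.shift lo).bound (fun a b => ?_) (sub_nonneg.2 hl) a b c
  have h1 := up a b
  have h2 := dn a b
  have h3 := mul_nonneg (sub_nonneg.2 hl) (sq_nonneg ⟪a, b⟫)
  have h4 := mul_nonneg (sub_nonneg.2 hl) (mul_nonneg (sq_nonneg ‖a‖) (sq_nonneg ‖b‖))
  simp only [inner_add_left, inner_sub_left, real_inner_smul_left, real_inner_self_eq_norm_sq,
    real_inner_comm a b]
  rw [abs_le]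
  constructor <;> nlinarith

end Cu

end Pool.Agent.MP_3ee8cb_gt.DNGA
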