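import Pool.Agent.MP_3ee8cb_gt.DN.Spec2
import Pool.Agent.MP_3ee8cb_gt.DNGA.Kt
import Pool.Agent.MP_3ee8cb_gt.DNJC.Alg

/-! The curvature tensor of a pinched space is close to the one of constant curvature. -/

namespace Pool.Agent.MP_3ee8cb_gt.DN

variable [Dim]

open scoped RealInnerProductSpace

theorem pol_le {m : MF} {lo hi : ℝ} (h1 : m.Up lo) (h2 : m.Dn hi) : lo ≤ hi := by
  have := (h1 0 (EuclideanSpace.single 0 1) (EuclideanSpace.single 1 1)).trans (h2 0 _ _)
  simpa [EuclideanSpace.inner_single_left] using this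

theorem pol_cu {m : MF} (o : m.OK) (j : m.Jac) (y : V) : DNGA.Cu (m.K y) := by
  obtain ⟨L, hL⟩ := j.lK y
  exact ⟨fun a a' b c => by simp [hL], fun r a b c => by simp [hL], fun a b c c' => by simp [hL],
    fun r a b c => by simp [hL], j.aK y, j.sK y, j.pK y, DNJC.bK o y⟩

theorem sPOL : SPOL := by
  intro m lo hi o j up dn y u v w
  have l := pol_le up dn
  refine ((pol_cu o j y).pinch l (up y) (dn y) u v w).trans ?_
  have p : 0 ≤ (hi - lo) * (‖u‖ * ‖v‖ * ‖w‖) := mul_nonneg (sub_nonneg.2 l) (by positivity)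
  nlinarith

end Pool.Agent.MP_3ee8cb_gt.DN
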